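import Pool.Agent.Q95.AP.Chk
import Pool.Agent.Q95.AP.First

namespace Pool.Agent.Results.MP_c5ead3_nt.AlmostPerfect

/-- sum of the positive divisors of `m` -/
def sig (m : ℕ) : ℕ := ∑ d ∈ m.divisors, d

/-- the least `k ≥ 1` with `k` deficient and `k n` non-deficient -/
noncomputable def a (n : ℕ) : ℕ :=
  sInf {k | 1 ≤ k ∧ sig k < 2 * k ∧ 2 * (k * n) ≤ sig (k * n)}

/-- the assertion of Q1 for the number `n` -/
def Good (n : ℕ) : Prop := a n = 3 ∨ ∃ j, a n = 2 ^ j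

theorem result :
    (∀ n, 2 ≤ n → ¬ Good n → sig (a n) + 1 = 2 * a n ∧ ∀ p, p.Prime → p ∣ n → a n < p) ∧
    (∀ n, 2 ≤ n → (∃ p, p.Prime ∧ p ∣ n ∧ p < 512) → Good n) ∧
    ((∀ n, 2 ≤ n → Good n) ↔ ∀ k, 1 ≤ k → sig k + 1 = 2 * k → ∃ j, k = 2 ^ j) := by
  have h1 : ∀ n, 2 ≤ n → ¬ Good n →
      sig (a n) + 1 = 2 * a n ∧ ∀ p, p.Prime → p ∣ n → a n < p :=
    fun n h2 h => Q95.AP.exceptional h2 h
  refine ⟨h1, ?_, ?_⟩
  · rintro n h2 ⟨p, hp, hd, hlt⟩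
    by_contra h
    obtain ⟨h3, h4⟩ := h1 n h2 h
    have h5 : a n < 512 := (h4 p hp hd).trans hlt
    exact h (Or.inr ⟨_, Q95.AP.chk_spec 512 Q95.AP.chk_ok (a n) h5 h3⟩)
  · constructor
    · intro h k hk hap
      by_contra hne
      push Not at hne
      obtain ⟨n, h2, h3, h4⟩ := Q95.AP.exists_bad hk hap hne
      rcases h n h2 with h5 | ⟨j, h5⟩
      · exact h3 h5
      · exact h4 j h5
    · intro h n h2
      by_contra hg
      obtain ⟨h3, _⟩ := h1 n h2 hg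
      exact hg (Or.inr (h _ (Q95.AP.a_mem h2).1 h3))

end Pool.Agent.Results.MP_c5ead3_nt.AlmostPerfect
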